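import Pool.Agent.Q297.JG7

/-!
# Strict Jensen gap for the planted random subsequence model

`embCount X Y` is the number of strictly increasing maps `σ : [M] → [N]` with `X ∘ σ = Y`.
`planted N M F` is the expectation of `F (X, Y)` under the planted law: `X` uniform on `{0,1}^N`,
`σ` uniform among the strictly increasing maps `[M] → [N]`, `Y = X ∘ σ`.
-/

set_option autoImplicit false

namespace Pool.Agent.Results.MP_667a4a_pr.StrictJensenGap

open Filter Topology
open Pool.Agent.Q297.JG (embCount planted)

/-- For every `α ∈ (0,1)` the Jensen gap of the planted model is at least `c N` for all large `N`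
and all `M` with `M / N` close to `α`. In particular, along every sequence with `N, M → ∞`,
`M / N → α` (for instance `M = α N`) on which the quenched and the annealed free energies have
limits `f` and `g`, one has `f < g`. -/
theorem result (α : ℝ) (hα0 : 0 < α) (hα1 : α < 1) :
    (∃ c : ℝ, 0 < c ∧ ∃ δ : ℝ, 0 < δ ∧ ∃ N0 : ℕ, ∀ N M : ℕ, N0 ≤ N →
      |(M : ℝ) / N - α| ≤ δ →
      planted N M (fun X Y => Real.log (embCount X Y)) + c * N ≤
        Real.log (planted N M (fun X Y => (embCount X Y : ℝ)))) ∧
    ∀ (N M : ℕ → ℕ) (f g : ℝ), Tendsto N atTop atTop →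
      Tendsto (fun k => (M k : ℝ) / N k) atTop (𝓝 α) →
      Tendsto (fun k => 1 / (N k : ℝ) *
        planted (N k) (M k) (fun X Y => Real.log (embCount X Y))) atTop (𝓝 f) →
      Tendsto (fun k => 1 / (N k : ℝ) *
        Real.log (planted (N k) (M k) (fun X Y => (embCount X Y : ℝ)))) atTop (𝓝 g) →
      f < g := by
  have h := Pool.Agent.Q297.JG.gap α hα0 hα1
  refine ⟨h, fun N M f g hN hM hf hg => ?_⟩
  obtain ⟨c, hc, δ, hδ, N0, hgap⟩ := h
  have h1 : ∀ᶠ k in atTop, |(M k : ℝ) / N k - α| ≤ δ := by
    have := (tendsto_iff_norm_sub_tendsto_zero.1 hM).eventually (ge_mem_nhds hδ)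
    filter_upwards [this] with k hk
    exact hk
  have h2 : ∀ᶠ k in atTop, 1 / (N k : ℝ) *
        planted (N k) (M k) (fun X Y => Real.log (embCount X Y)) + c ≤ 1 / (N k : ℝ) *
        Real.log (planted (N k) (M k) (fun X Y => (embCount X Y : ℝ))) := by
    filter_upwards [h1, hN.eventually_ge_atTop (max N0 1)] with k hk1 hk2
    have hk3 := hgap (N k) (M k) (le_trans (le_max_left _ _) hk2) hk1
    have hk4 : 1 ≤ N k := le_trans (le_max_right _ _) hk2
    have hpos : (0 : ℝ) < N k := by exact_mod_cast hk4
    have hk5 := mul_le_mul_of_nonneg_left hk3 (by positivity : (0 : ℝ) ≤ 1 / (N k : ℝ))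
    have e : 1 / (N k : ℝ) * (planted (N k) (M k) (fun X Y => Real.log (embCount X Y)) +
        c * N k) = 1 / (N k : ℝ) *
        planted (N k) (M k) (fun X Y => Real.log (embCount X Y)) + c := by
      field_simp
    rwa [e] at hk5
  have h3 : f + c ≤ g := le_of_tendsto_of_tendsto (hf.add_const c) hg h2
  linarith

end Pool.Agent.Results.MP_667a4a_pr.StrictJensenGap
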